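import Pool.Agent.Y716.FF.Final

/-!
# The Hasse principle holds for 100% of the everywhere locally soluble Fano hypersurfaces
over `F_q(t)`, cubic surfaces included
-/

namespace Pool.Agent.Results.MP_d4938b_nt.RandomFanoFunctionField

open Polynomial IsDedekindDomain

/-- The forms of degree `d` in `n + 1` variables over `F[t]` all of whose coefficients have degree
less than `A`. -/
def Forms (F : Type*) [Field F] (n d A : ℕ) : Set (MvPolynomial (Fin (n + 1)) F[X]) :=
  {f | f.IsHomogeneous d ∧ ∀ m, (f.coeff m).degree < A}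

/-- The form `f` has a nontrivial zero over the rational function field `F(t)`. -/
def HasGlobalZero {F : Type*} [Field F] {n : ℕ} (f : MvPolynomial (Fin (n + 1)) F[X]) : Prop :=
  ∃ x : Fin (n + 1) → RatFunc F, x ≠ 0 ∧ MvPolynomial.aeval x f = 0

/-- The embedding of `F[t]` in the completion `F((u))`, `u = 1 / t`, of `F(t)` at infinity:
`t` goes to the inverse of `u`. -/
noncomputable def toInfty (F : Type*) [Field F] : F[X] →+* LaurentSeries F :=
  (Polynomial.aeval (HahnSeries.single (-1 : ℤ) (1 : F)) : F[X] →ₐ[F] LaurentSeries F).toRingHom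

/-- The form `f` has a nontrivial zero over the completion of `F(t)` at every place: at every
maximal ideal `v` of `F[t]`, and at infinity. -/
def HasLocalZeros {F : Type*} [Field F] {n : ℕ} (f : MvPolynomial (Fin (n + 1)) F[X]) : Prop :=
  (∀ v : HeightOneSpectrum F[X],
    ∃ x : Fin (n + 1) → v.adicCompletion (RatFunc F), x ≠ 0 ∧ MvPolynomial.aeval x f = 0) ∧
  ∃ x : Fin (n + 1) → LaurentSeries F, x ≠ 0 ∧ MvPolynomial.eval₂ (toInfty F) x f = 0

/-- For every finite field `F`, every `n ≥ 3` and every `d` with `2 ≤ d ≤ n`, the number of forms of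
degree `d` in `n + 1` variables with coefficients of degree `< A` which have a nontrivial zero over
`F(t)`, divided by the number of those which have nontrivial zeros over all completions of `F(t)`,
tends to `1` as `A` grows. -/
theorem result (F : Type*) [Field F] [Finite F] (n d : ℕ) (hn : 3 ≤ n) (hd : 2 ≤ d)
    (hdn : d ≤ n) :
    Filter.Tendsto (fun A : ℕ =>
      (({f ∈ Forms F n d A | HasGlobalZero f} : Set _).ncard : ℝ) /
      (({f ∈ Forms F n d A | HasLocalZeros f} : Set _).ncard : ℝ))
      Filter.atTop (nhds 1) := by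
  obtain ⟨e, rfl⟩ : ∃ e, d = e + 2 := ⟨d - 2, by omega⟩
  exact Pool.Agent.Y716.FF.main_tendsto (F := F) (ι := Fin (n + 1)) e
    (by rw [Fintype.card_fin]; omega) (by rw [Fintype.card_fin]; omega)

end Pool.Agent.Results.MP_d4938b_nt.RandomFanoFunctionField
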